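import Pool.Agent.N147.BN.Final

/-!
# MP_eed2ef_ag, Q1: the non-containment `M^r_{g,d} ⊄ M^s_{g,e}` fails

For all `s ≥ 2`, `r ≥ 2 s - 1`, `d ≥ 2 r` and `g > (d-r+1)(d-r)/2` the Brill-Noether loci `M^r_{g,d}`
and `M^s_{g,e}`, `e = d - 2 r + 2 s`, are not empty, `(g, r, s, d, e)` satisfies all the conditions of
the question, and `M^r_{g,d} ⊆ M^s_{g,e}`. The containment `M^r_{g,d} ⊆ M^s_{g,d-2r+2s}` holds for all
`1 ≤ s ≤ r` and `g > (d-r+1)(d-r)/2`.

A curve is given by its function field `K` over `ℂ` (`IsCurve`), line bundles by local generators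
(`LineBundle`), `H0 L` is the space of global sections, and `genus K = dim H¹(C, 𝒪_C)`; see
`Pool/Agent/Helper395/CS/Defs.lean`, `Pool/Agent/Helper395/BC/Defs.lean` and
`Pool/Agent/Helper395/BC/Base.lean`. The proof uses the theorems of `Pool.Agent.N147.BN`.
-/

set_option autoImplicit false

namespace Pool.Agent.Results.MP_eed2ef_ag.LargeGenus

open Pool.Agent.Helper395.CS (IsCurve LineBundle)
open Pool.Agent.Helper395.BC (genus H0)

/-- The Brill-Noether number `ρ(g, r, d) = g - (r + 1) (g - d + r)`. -/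
def rho (g r d : ℤ) : ℤ := g - (r + 1) * (g - d + r)

/-- The curve with function field `K` carries a `g^r_d`: it has a line bundle `L` of degree `d` with
`h⁰(L) ≥ r + 1`. -/
def Carries (K : Type) [Field K] [Algebra ℂ K] (r d : ℕ) : Prop :=
  ∃ L : LineBundle K, L.degree = d ∧ r + 1 ≤ Module.finrank ℂ (H0 L)

/-- The Brill-Noether locus `M^r_{g,d}` is not empty. -/
def LocusNonempty (g r d : ℕ) : Prop :=
  ∃ (K : Type) (_ : Field K) (_ : Algebra ℂ K), IsCurve K ∧ genus K = g ∧ Carries K r d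

/-- `M^r_{g,d}` is a Brill-Noether locus: `r ≥ 1`, `ρ(g, r, d) < 0` and `M^r_{g,d}` is not empty. -/
def IsLocus (g r d : ℕ) : Prop := 1 ≤ r ∧ rho g r d < 0 ∧ LocusNonempty g r d

/-- The containment `M^r_{g,d} ⊆ M^s_{g,e}`: every curve of genus `g` with a `g^r_d` has a `g^s_e`. -/
def Contained (g r d s e : ℕ) : Prop :=
  ∀ (K : Type) (_ : Field K) (_ : Algebra ℂ K), IsCurve K → genus K = g → Carries K r d →
    Carries K s e

/-- The conditions of the question on `(g, r, s, d, e)`. -/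
structure Conditions (g r s d e : ℕ) : Prop where
  three_le : 3 ≤ s + 1
  s_lt : s + 1 ≤ r
  d_le : (d : ℤ) ≤ g - 1
  e_le : (e : ℤ) ≤ g - 1
  locus : IsLocus g r d
  locus' : IsLocus g s e
  lt : (e : ℤ) < d - 2 * r + 2 + s + ((r - 1) / 2 : ℕ)

/-- The statement asked about. -/
def Statement : Prop :=
  ∃ g₀ : ℕ, ∀ g ≥ g₀, ∀ r s d e : ℕ, Conditions g r s d e → ¬ Contained g r d s e

theorem choose_bound {m g : ℕ} (hm : 3 ≤ m) (h : (m + 1).choose 2 < g) :
    2 * m < g ∧ m * (m + 1) < 2 * g := by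
  have h1 : (m + 1).choose 2 * 2 = m * (m + 1) := by
    have h2 := Nat.choose_two_right (m + 1)
    rw [Nat.add_sub_cancel] at h2
    rw [h2, Nat.div_mul_cancel, mul_comm]
    rw [mul_comm]
    exact (Nat.even_mul_succ_self m).two_dvd
  constructor <;> nlinarith

/-- Brill-Noether loci are not empty if `d ≥ 2 r` (hyperelliptic curves) -/
theorem nonempty {g r d : ℕ} (hg : 7 ≤ g) (hd : 2 * r ≤ d) : LocusNonempty g r d := by
  obtain ⟨K, i1, i2, hK, hgK, H⟩ := Pool.Agent.N147.BN.exists_hyp g hg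
  obtain ⟨L, hL1, hL2⟩ := H r
  have hg0 : genus K ≠ 0 := by rw [hgK]; omega
  obtain ⟨M, hM1, hM2⟩ := Pool.Agent.N147.BN.add_points hK hg0 L (d - 2 * r)
  refine ⟨K, i1, i2, hK, hgK, M, ?_, hL2.trans hM2⟩
  rw [hM1, hL1]
  omega

/-- The containment. -/
theorem contained {g r d s : ℕ} (hs : 1 ≤ s) (hsr : s ≤ r) (hg : (d - r + 1).choose 2 < g) :
    Contained g r d s (d - 2 * (r - s)) := by
  intro K i1 i2 hK hgK ⟨L, hL1, hL2⟩
  have hg0 : genus K ≠ 0 := by rw [hgK]; omega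
  obtain ⟨M, hM1, hM2⟩ := Pool.Agent.N147.BN.descend hK hg0 hL1 hL2 (by rw [hgK]; exact hg) (r - s)
    (by omega)
  have hpos : 0 ≤ M.degree := by
    by_contra h
    rw [Pool.Agent.Helper395.BC.H0_eq_bot hK (not_le.1 h), finrank_bot] at hM2
    omega
  refine ⟨M, ?_, by omega⟩
  rw [hM1, hL1] at hpos ⊢
  omega

/-- All the assertions for given `r`, `s`, `d`. -/
theorem main {r s d g : ℕ} (hs : 2 ≤ s) (hr : 2 * s ≤ r + 1) (hd : 2 * r ≤ d)
    (hg : (d - r + 1).choose 2 < g) :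
    Conditions g r s d (d - 2 * (r - s)) ∧ Contained g r d s (d - 2 * (r - s)) := by
  have hsr : s + 1 ≤ r := by omega
  refine ⟨?_, contained (by omega) (by omega) hg⟩
  obtain ⟨m, rfl⟩ : ∃ m, d = m + r := ⟨d - r, by omega⟩
  have hm : r ≤ m := by omega
  rw [Nat.add_sub_cancel] at hg
  obtain ⟨h1, h2⟩ := choose_bound (by omega) hg
  have he : ((m + r - 2 * (r - s) : ℕ) : ℤ) = m - r + 2 * s := by omega
  have h3 : (2 * m : ℤ) < g := by exact_mod_cast h1
  have h4 : (3 : ℤ) ≤ r := by exact_mod_cast (by omega : 3 ≤ r)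
  have h5 : (r : ℤ) ≤ m := by exact_mod_cast hm
  have h6 : (s : ℤ) + 1 ≤ r := by exact_mod_cast hsr
  have h7 : (2 : ℤ) ≤ s := by exact_mod_cast hs
  have hg7 : 7 ≤ g := by nlinarith
  refine ⟨by omega, hsr, ?_, ?_, ⟨by omega, ?_, nonempty hg7 hd⟩,
    ⟨by omega, ?_, nonempty hg7 (by omega)⟩, ?_⟩
  · push_cast
    omega
  · rw [he]
    omega
  · unfold rho
    push_cast
    nlinarith
  · unfold rho
    rw [he]
    nlinarith
  · rw [he]
    push_cast
    omega

/-- RESULT: the non-containment asked about is false. (1) If `1 ≤ s ≤ r` and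
`g > (d-r+1)(d-r)/2`, then `M^r_{g,d} ⊆ M^s_{g,d-2(r-s)}`. (2) For all `s ≥ 2`, `r ≥ 2 s - 1`,
`d ≥ 2 r` and `g > (d-r+1)(d-r)/2` the loci `M^r_{g,d}` and `M^s_{g,e}`, `e = d - 2 (r - s)`, satisfy
all the conditions of the question, and the first is contained in the second. (3) This occurs for
every `g ≥ 7`; in particular the statement is false. -/
theorem result :
    (∀ g r d s : ℕ, 1 ≤ s → s ≤ r → (d - r + 1).choose 2 < g →
      Contained g r d s (d - 2 * (r - s))) ∧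
    (∀ g r s d : ℕ, 2 ≤ s → 2 * s ≤ r + 1 → 2 * r ≤ d → (d - r + 1).choose 2 < g →
      Conditions g r s d (d - 2 * (r - s)) ∧ Contained g r d s (d - 2 * (r - s))) ∧
    (∀ g : ℕ, 7 ≤ g → ∃ r s d e : ℕ, Conditions g r s d e ∧ Contained g r d s e) ∧
    ¬ Statement := by
  refine ⟨fun g r d s h1 h2 h3 => contained h1 h2 h3, fun g r s d h1 h2 h3 h4 => main h1 h2 h3 h4,
    fun g hg => ⟨3, 2, 6, _, main (s := 2) (r := 3) (d := 6) le_rfl (by omega) (by omega)
      (by simp [Nat.choose]; omega)⟩, ?_⟩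
  rintro ⟨g₀, H⟩
  have hg : (6 - 3 + 1).choose 2 < max g₀ 7 := by
    simp [Nat.choose]
  obtain ⟨h1, h2⟩ := main (s := 2) (r := 3) (d := 6) le_rfl (by omega) (by omega) hg
  exact H _ (le_max_left _ _) 3 2 6 _ h1 h2

end Pool.Agent.Results.MP_eed2ef_ag.LargeGenus
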